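import Pool.Agent.PFE.StmtsE2b
import Pool.Agent.Helper49_PFD.FPF

/-! Squad PFE (MP_6a3f1a_al), row WFX (helper44): elements of `S` which commute with `W` modulo `π`
lift. -/

set_option autoImplicit false

open scoped BigOperators

noncomputable section

namespace Pool.Agent.PFE.H44

open Pool.Agent.PFC.B1 (FS)
open Pool.Agent.PFD.D2b (FPl FrR)

section rp

variable {R S W : Type} [CommRing R] [Ring S] [Algebra R S] [CommGroup W]

/-- `(u, v) s = om u * s * om v⁻¹` -/
def rpW (R : Type) {S W : Type} [CommRing R] [Ring S] [Algebra R S] [CommGroup W] (om : W →* S) :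
    W × W →* (S →ₗ[R] S) where
  toFun := fun w =>
    (LinearMap.mulLeft R (om w.1)).comp (LinearMap.mulRight R (om w.2⁻¹))
  map_one' := by
    ext a
    simp
  map_mul' := by
    intro x y
    ext a
    simp [mul_assoc]

theorem rpW_apply (om : W →* S) (w : W × W) (s : S) :
    rpW R om w s = om w.1 * (s * om w.2⁻¹) := rfl

end rp

theorem wfx : WfxStmt := by
  intro R S X Ω W _ _ _ _ _ _ _ _ _ G E p s hs
  have hinv : ∀ w : W, E.om w⁻¹ * E.om w = 1 := fun w => by
    rw [← map_mul, inv_mul_cancel, map_one]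
  have hinv' : ∀ w : W, E.om w * E.om w⁻¹ = 1 := fun w => by
    rw [← map_mul, mul_inv_cancel, map_one]
  have hfr : FrR (rpW R E.om) E.f.b (fun o => E.f.lam.comp (LinearMap.mulLeft R (E.f.b' o))) := by
    refine ⟨fun w o => ?_, fun w o n => ?_, fun n => ?_⟩
    · rw [rpW_apply, E.bw, mul_assoc]
    · change E.f.lam (E.f.b' (w • o) * rpW R E.om w n) = E.f.lam (E.f.b' o * n)
      rw [rpW_apply, E.bw']
      have e1 : E.om w.2 * E.f.b' o * E.om w.1⁻¹ * (E.om w.1 * (n * E.om w.2⁻¹)) =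
          E.om w.2 * (E.f.b' o * n * E.om w.2⁻¹) := by
        calc E.om w.2 * E.f.b' o * E.om w.1⁻¹ * (E.om w.1 * (n * E.om w.2⁻¹)) =
            E.om w.2 * E.f.b' o * (E.om w.1⁻¹ * E.om w.1) * (n * E.om w.2⁻¹) := by
              simp only [mul_assoc]
          _ = _ := by rw [hinv, mul_one]; simp only [mul_assoc]
      rw [e1, E.sy, mul_assoc (E.f.b' o * n), hinv, mul_one]
    · exact E.f.h1 n
  have hfp : FPl p (rpW R E.om) :=
    Pool.Agent.PFD.D2b.H49.fpf R (W × W) S Ω (rpW R E.om) E.f.b _ p hfr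
  obtain ⟨m, hm, t, ht⟩ := hfp ((MonoidHom.id W).prod (MonoidHom.id W)).range s (by
    rintro _ ⟨w, rfl⟩
    obtain ⟨t, ht⟩ := hs w
    refine ⟨t * E.om w⁻¹, ?_⟩
    rw [rpW_apply]
    change E.om w * (s * E.om w⁻¹) - s = p • (t * E.om w⁻¹)
    rw [← smul_mul_assoc, ← ht, sub_mul, mul_assoc s, hinv', mul_one, mul_assoc])
  refine ⟨m, fun w => ?_, t, ht⟩
  have h1 := hm (w, w) ⟨w, rfl⟩
  rw [rpW_apply] at h1
  change E.om w * (m * E.om w⁻¹) = m at h1
  calc E.om w * m = E.om w * (m * E.om w⁻¹) * E.om w := by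
        rw [mul_assoc, mul_assoc, hinv, mul_one]
    _ = m * E.om w := by rw [h1]

end Pool.Agent.PFE.H44
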